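import Mathlib.LinearAlgebra.Matrix.Rank
import Mathlib.Algebra.MvPolynomial.Funext
import Mathlib.Combinatorics.SimpleGraph.Finite
import Mathlib.RingTheory.SimpleRing.Principal
import Mathlib.RingTheory.Henselian
import Mathlib.RingTheory.RegularLocalRing.Defs

-- ======== part 0: formerly Pool.Agent.MP_199c9e_co.Levels
section MrgPart0

/-!
Level structure of a finite graph `H` whose degrees are all below `d`.

Every vertex `v` gets a level `l v < d` together with an enumeration `s v 0, ..., s v (l v - 1)` of
exactly those neighbours of `v` whose level is at most `l v`, such that the `i`-th one has level at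
most `i`.  (This is the block structure of a maximum cardinality search ordering of the complement.)
-/

set_option autoImplicit false

namespace Pool.Agent.MP_199c9e_co

open Finset

/-- The invariant of the level construction after `r` rounds. -/
def LevInv {V : Type} (H : SimpleGraph V) (r : ℕ) (l : V → ℕ) (s : V → ℕ → V) : Prop :=
  (∀ v, l v ≤ r) ∧
  (∀ v i j, i < l v → j < l v → s v i = s v j → i = j) ∧
  (∀ v i, i < l v → H.Adj v (s v i) ∧ l (s v i) ≤ i) ∧
  (∀ u v, l v < r → H.Adj v u → l u ≤ l v → ∃ i, i < l v ∧ s v i = u)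

theorem levInv_zero {V : Type} (H : SimpleGraph V) :
    LevInv H 0 (fun _ => 0) (fun v _ => v) := by
  refine ⟨fun _ => le_rfl, ?_, ?_, ?_⟩
  · intro v i j hi; exact absurd hi (Nat.not_lt_zero _)
  · intro v i hi; exact absurd hi (Nat.not_lt_zero _)
  · intro u v hv; exact absurd hv (Nat.not_lt_zero _)

theorem levInv_succ {V : Type} [Fintype V] (H : SimpleGraph V) (r : ℕ) (l : V → ℕ)
    (s : V → ℕ → V) (h : LevInv H r l s) : ∃ l' s', LevInv H (r + 1) l' s' := by
  classical
  obtain ⟨h1, h2, h3, h4⟩ := h
  -- candidates for level `r`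
  let T : V → Prop := fun v => l v = r ∧ ∀ u, H.Adj v u → l u < r → ∃ i, i < r ∧ s v i = u
  -- independent sets of candidates
  let P : Finset V → Prop := fun L => (∀ v ∈ L, T v) ∧ ∀ u ∈ L, ∀ v ∈ L, ¬ H.Adj u v
  have hP0 : P ∅ := ⟨by simp, by simp⟩
  obtain ⟨L, hL, hLmax⟩ : ∃ L, P L ∧ ∀ L', P L' → L'.card ≤ L.card := by
    obtain ⟨L, hL, hmax⟩ := Finset.exists_max_image (univ.filter P) Finset.card
      ⟨∅, by simpa using hP0⟩
    exact ⟨L, by simpa using hL, fun L' hL' => hmax L' (by simpa using hL')⟩
  have hLT : ∀ v ∈ L, l v = r := fun v hv => (hL.1 v hv).1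
  -- every vertex that is promoted has a new neighbour
  have hnew : ∀ v, l v = r → v ∉ L →
      ∃ u, H.Adj v u ∧ (l u < r ∨ u ∈ L) ∧ ∀ i, i < r → s v i ≠ u := by
    intro v hv hvL
    by_cases hT : T v
    · by_contra hcon
      have hno : ∀ u ∈ L, ¬ H.Adj v u := by
        intro u hu hadj
        apply hcon
        refine ⟨u, hadj, Or.inr hu, ?_⟩
        intro i hi he
        have := (h3 v i (hv ▸ hi)).2
        rw [he, hLT u hu] at this
        omega
      have hP' : P (insert v L) := by
        refine ⟨?_, ?_⟩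
        · intro w hw
          rcases Finset.mem_insert.mp hw with rfl | hw
          · exact hT
          · exact hL.1 w hw
        · intro a ha b hb
          rcases Finset.mem_insert.mp ha with ha1 | ha1
          · rcases Finset.mem_insert.mp hb with hb1 | hb1
            · rw [ha1, hb1]; exact H.irrefl
            · rw [ha1]; exact hno b hb1
          · rcases Finset.mem_insert.mp hb with hb1 | hb1
            · rw [hb1]; exact fun hh => hno a ha1 hh.symm
            · exact hL.2 a ha1 b hb1
      have := hLmax _ hP'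
      rw [Finset.card_insert_of_notMem hvL] at this
      omega
    · have : ¬ ∀ u, H.Adj v u → l u < r → ∃ i, i < r ∧ s v i = u := fun hh => hT ⟨hv, hh⟩
      push Not at this
      obtain ⟨u, hu1, hu2, hu3⟩ := this
      exact ⟨u, hu1, Or.inl hu2, hu3⟩
  choose! nw hnw using hnew
  let l' : V → ℕ := fun v => if l v < r ∨ v ∈ L then l v else r + 1
  let s' : V → ℕ → V := fun v i => if i = r then nw v else s v i
  have hl'1 : ∀ v, (l v < r ∨ v ∈ L) → l' v = l v := fun v hv => if_pos hv
  have hl'2 : ∀ v, ¬ (l v < r ∨ v ∈ L) → l' v = r + 1 := fun v hv => if_neg hv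
  have hs'1 : ∀ v i, i < r → s' v i = s v i := fun v i hi => if_neg (by omega)
  have hs'2 : ∀ v, s' v r = nw v := fun v => if_pos rfl
  have hprom : ∀ v, ¬ (l v < r ∨ v ∈ L) → l v = r ∧ v ∉ L := by
    intro v hv
    push Not at hv
    exact ⟨le_antisymm (h1 v) hv.1, hv.2⟩
  refine ⟨l', s', ?_, ?_, ?_, ?_⟩
  · intro v
    by_cases hv : l v < r ∨ v ∈ L
    · rw [hl'1 v hv]; exact (h1 v).trans (Nat.le_succ r)
    · rw [hl'2 v hv]
  · intro v i j hi hj hij
    by_cases hv : l v < r ∨ v ∈ L
    · rw [hl'1 v hv] at hi hj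
      have := h1 v
      rw [hs'1 v i (by omega), hs'1 v j (by omega)] at hij
      exact h2 v i j hi hj hij
    · rw [hl'2 v hv] at hi hj
      obtain ⟨hv1, hv2⟩ := hprom v hv
      have hn := hnw v hv1 hv2
      rcases Nat.lt_succ_iff_lt_or_eq.mp hi with hi | rfl
      · rcases Nat.lt_succ_iff_lt_or_eq.mp hj with hj | rfl
        · rw [hs'1 v i hi, hs'1 v j hj] at hij
          exact h2 v i j (by omega) (by omega) hij
        · rw [hs'1 v i hi, hs'2] at hij
          exact absurd hij (hn.2.2 i hi)
      · rcases Nat.lt_succ_iff_lt_or_eq.mp hj with hj | rfl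
        · rw [hs'1 v j hj, hs'2] at hij
          exact absurd hij.symm (hn.2.2 j hj)
        · rfl
  · intro v i hi
    have key : i < r → i < l v → H.Adj v (s' v i) ∧ l' (s' v i) ≤ i := by
      intro hir hil
      rw [hs'1 v i hir]
      have := h3 v i hil
      refine ⟨this.1, ?_⟩
      rw [hl'1 _ (Or.inl (by omega))]
      exact this.2
    by_cases hv : l v < r ∨ v ∈ L
    · rw [hl'1 v hv] at hi
      have := h1 v
      exact key (by omega) hi
    · rw [hl'2 v hv] at hi
      obtain ⟨hv1, hv2⟩ := hprom v hv
      rcases Nat.lt_succ_iff_lt_or_eq.mp hi with hi | rfl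
      · exact key hi (by omega)
      · rw [hs'2]
        have hn := hnw v hv1 hv2
        refine ⟨hn.1, ?_⟩
        rw [hl'1 _ hn.2.1]
        exact h1 _
  · intro u v hv hadj hle
    have hvc : l v < r ∨ v ∈ L := by
      by_contra hc
      rw [hl'2 v hc] at hv
      omega
    rw [hl'1 v hvc] at hle hv ⊢
    have huc : l u < r ∨ u ∈ L := by
      by_contra hc
      rw [hl'2 u hc] at hle
      omega
    rw [hl'1 u huc] at hle
    by_cases hvr : l v < r
    · obtain ⟨i, hi, he⟩ := h4 u v hvr hadj hle
      exact ⟨i, hi, by rw [hs'1 v i (by omega)]; exact he⟩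
    · have hvL : v ∈ L := hvc.resolve_left hvr
      rcases huc with hu | hu
      · obtain ⟨i, hi, he⟩ := (hL.1 v hvL).2 u hadj hu
        exact ⟨i, by rw [hLT v hvL]; exact hi, by rw [hs'1 v i hi]; exact he⟩
      · exact absurd hadj (hL.2 v hvL u hu)

/-- The level structure. -/
theorem exists_levels {V : Type} [Fintype V] (H : SimpleGraph V) [DecidableRel H.Adj] (d : ℕ)
    (hd : ∀ v, H.degree v < d) :
    ∃ (l : V → ℕ) (s : V → ℕ → V), (∀ v, l v < d) ∧
      (∀ v i j, i < l v → j < l v → s v i = s v j → i = j) ∧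
      (∀ v i, i < l v → H.Adj v (s v i) ∧ l (s v i) ≤ i) ∧
      (∀ u v, H.Adj v u → l u ≤ l v → ∃ i, i < l v ∧ s v i = u) := by
  classical
  have hall : ∀ r, ∃ l s, LevInv H r l s := by
    intro r
    induction r with
    | zero => exact ⟨_, _, levInv_zero H⟩
    | succ r ih =>
      obtain ⟨l, s, h⟩ := ih
      exact levInv_succ H r l s h
  obtain ⟨l, s, h1, h2, h3, h4⟩ := hall d
  have hlt : ∀ v, l v < d := by
    intro v
    have hcard : (Finset.range (l v)).card ≤ (H.neighborFinset v).card := by
      apply Finset.card_le_card_of_injOn (s v)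
      · intro i hi
        have hi' : i < l v := by simpa using hi
        simpa using (h3 v i hi').1
      · intro i hi j hj hij
        exact h2 v i j (by simpa using hi) (by simpa using hj) hij
    rw [Finset.card_range, SimpleGraph.card_neighborFinset_eq_degree] at hcard
    exact lt_of_le_of_lt hcard (hd v)
  exact ⟨l, s, hlt, h2, h3, fun u v hadj hle => h4 u v (hlt v) hadj hle⟩

end Pool.Agent.MP_199c9e_co

end MrgPart0

-- ======== part 1: formerly Pool.Agent.MP_199c9e_co.Algebra
section MrgPart1

/-!
Algebraic part: generic staircase vectors and the diagonal form `∑ X ^ j * a j * b j` over `F[X]`.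
-/

set_option autoImplicit false

namespace Pool.Agent.MP_199c9e_co

open Finset Polynomial Matrix

universe u

/-- A finite family of nonzero multivariate polynomials over an infinite field has a common
non-root. -/
theorem exists_common_nonroot {F : Type u} [Field F] [Infinite F] {σ ι : Type} [Fintype ι]
    (p : ι → MvPolynomial σ F) (hp : ∀ i, p i ≠ 0) :
    ∃ y : σ → F, ∀ i, MvPolynomial.eval y (p i) ≠ 0 := by
  classical
  have hprod : (∏ i, p i) ≠ 0 := Finset.prod_ne_zero_iff.mpr fun i _ => hp i
  by_contra hcon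
  push Not at hcon
  apply hprod
  apply MvPolynomial.funext
  intro y
  obtain ⟨i, hi⟩ := hcon y
  rw [map_prod, map_zero]
  exact Finset.prod_eq_zero (Finset.mem_univ i) hi

/-- A finite family of nonzero polynomials over an infinite field has a common non-root. -/
theorem exists_common_nonroot' {F : Type u} [Field F] [Infinite F] {ι : Type} [Fintype ι]
    (p : ι → F[X]) (hp : ∀ i, p i ≠ 0) :
    ∃ t : F, ∀ i, (p i).eval t ≠ 0 := by
  classical
  have hprod : (∏ i, p i) ≠ 0 := Finset.prod_ne_zero_iff.mpr fun i _ => hp i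
  by_contra hcon
  push Not at hcon
  apply hprod
  apply Polynomial.funext
  intro t
  obtain ⟨i, hi⟩ := hcon t
  rw [Polynomial.eval_prod, Polynomial.eval_zero]
  exact Finset.prod_eq_zero (Finset.mem_univ i) hi

/-- The staircase vector of `v`: zero in the first `l v` places, then free entries. -/
def stair {V R : Type*} [Zero R] (l : V → ℕ) (y : V × ℕ → R) (v : V) (j : ℕ) : R :=
  if j < l v then 0 else y (v, j)

theorem exists_generic (F : Type u) [Field F] [Infinite F] {V : Type} [Fintype V]
    (l : V → ℕ) (d : ℕ) :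
    ∃ y : V × ℕ → F, (∀ v, y (v, l v) ≠ 0) ∧
      ∀ m, m ≤ d → ∀ τ : Fin m → V, Function.Injective τ → (∀ i, l (τ i) ≤ i) →
        (Matrix.of fun i j : Fin m => stair l y (τ i) j).det ≠ 0 := by
  classical
  let I : Type := Σ m : Fin (d + 1),
    {τ : Fin m → V // Function.Injective τ ∧ ∀ i, l (τ i) ≤ i}
  let p : V ⊕ I → MvPolynomial (V × ℕ) F := fun a =>
    match a with
    | Sum.inl v => MvPolynomial.X (v, l v)
    | Sum.inr b => (Matrix.of fun i j : Fin b.1 =>
        stair l (fun z => (MvPolynomial.X z : MvPolynomial (V × ℕ) F)) (b.2.1 i) j).det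
  have heval : ∀ (y : V × ℕ → F) (b : I), MvPolynomial.eval y (p (Sum.inr b)) =
      (Matrix.of fun i j : Fin b.1 => stair l y (b.2.1 i) j).det := by
    intro y b
    simp only [p]
    rw [RingHom.map_det]
    congr 1
    ext i j
    simp only [RingHom.mapMatrix_apply, Matrix.map_apply, Matrix.of_apply, stair]
    split_ifs <;> simp
  have hp : ∀ a, p a ≠ 0 := by
    rintro (v | b)
    · exact MvPolynomial.X_ne_zero _
    · intro h0
      obtain ⟨m, τ, hτ1, hτ2⟩ := b
      let y0 : V × ℕ → F := fun z => if ∃ i : Fin m, τ i = z.1 ∧ (i : ℕ) = z.2 then 1 else 0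
      have h1 := heval y0 ⟨m, τ, hτ1, hτ2⟩
      rw [h0, map_zero] at h1
      have h2 : (Matrix.of fun i j : Fin m => stair l y0 (τ i) j) = 1 := by
        ext i j
        simp only [Matrix.of_apply, stair, y0]
        by_cases hij : i = j
        · subst hij
          rw [if_neg (not_lt.mpr (hτ2 i)), if_pos ⟨i, rfl, rfl⟩, Matrix.one_apply_eq]
        · rw [Matrix.one_apply_ne hij]
          split_ifs with h3 h4
          · rfl
          · obtain ⟨k, hk1, hk2⟩ := h4
            exact absurd ((hτ1 hk1).symm.trans (Fin.ext hk2)) hij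
          · rfl
      simp only at h1
      rw [h2, Matrix.det_one] at h1
      exact zero_ne_one h1
  obtain ⟨y, hy⟩ := exists_common_nonroot p hp
  refine ⟨y, ?_, ?_⟩
  · intro v
    simpa [p] using hy (Sum.inl v)
  · intro m hm τ hτ1 hτ2
    have := hy (Sum.inr ⟨⟨m, Nat.lt_succ_of_le hm⟩, τ, hτ1, hτ2⟩)
    rw [heval] at this
    exact this

/-- The diagonal form with weights `X ^ j`. -/
noncomputable def form {F : Type u} [Field F] (d : ℕ) (a b : ℕ → F[X]) : F[X] :=
  ∑ j ∈ range d, X ^ j * a j * b j

theorem form_comm {F : Type u} [Field F] (d : ℕ) (a b : ℕ → F[X]) : form d a b = form d b a := by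
  unfold form
  exact Finset.sum_congr rfl fun j _ => by ring

theorem form_split {F : Type u} [Field F] {d r : ℕ} (h : r ≤ d) (a b : ℕ → F[X]) :
    form d a b = (∑ j : Fin r, a j * (X ^ (j : ℕ) * b j)) +
      X ^ r * ∑ k ∈ range (d - r), X ^ k * a (r + k) * b (r + k) := by
  unfold form
  obtain ⟨e, rfl⟩ := Nat.exists_eq_add_of_le h
  rw [Finset.sum_range_add, Nat.add_sub_cancel_left, Finset.mul_sum,
    Finset.sum_range (fun j => X ^ j * a j * b j)]
  congr 1
  · exact Finset.sum_congr rfl fun j _ => by ring
  · exact Finset.sum_congr rfl fun j _ => by ring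

theorem det_coeff_zero {F : Type u} [Field F] {m : ℕ} (a : Fin m → ℕ → F[X]) :
    ((Matrix.of fun i j : Fin m => a i j).det).coeff 0 =
      (Matrix.of fun i j : Fin m => (a i j).coeff 0).det := by
  have := RingHom.map_det (Polynomial.constantCoeff (R := F)) (Matrix.of fun i j : Fin m => a i j)
  rw [Polynomial.constantCoeff_apply] at this
  rw [this]
  congr 1

/-- Construction step: a vector orthogonal to `r` given vectors, a staircase vector modulo `X`. -/
theorem exists_step {F : Type u} [Field F] {d r : ℕ} (h : r ≤ d) (a : Fin r → ℕ → F[X])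
    (w : ℕ → F) (hdet : (Matrix.of fun i j : Fin r => (a i j).coeff 0).det ≠ 0) :
    ∃ (b : ℕ → F[X]) (c : F), c ≠ 0 ∧
      (∀ j, (b j).coeff 0 = c * (if j < r then 0 else w j)) ∧ ∀ i, form d (a i) b = 0 := by
  classical
  set M : Matrix (Fin r) (Fin r) F[X] := Matrix.of fun i j : Fin r => a i j with hM
  let q : Fin r → F[X] := fun i => ∑ k ∈ range (d - r), X ^ k * a i (r + k) * C (w (r + k))
  let z : Fin r → F[X] := M.cramer q
  let b : ℕ → F[X] := fun j =>
    if hj : j < r then -(X ^ (r - j) * z ⟨j, hj⟩) else M.det * C (w j)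
  refine ⟨b, M.det.coeff 0, ?_, ?_, ?_⟩
  · rw [hM, det_coeff_zero]; exact hdet
  · intro j
    by_cases hj : j < r
    · simp only [b, dif_pos hj, if_pos hj, mul_zero]
      have : r - j = (r - j - 1) + 1 := by omega
      rw [this, pow_succ', mul_assoc, Polynomial.coeff_neg, Polynomial.coeff_X_mul_zero, neg_zero]
    · simp only [b, dif_neg hj, if_neg hj]
      rw [Polynomial.coeff_mul_C]
  · intro i
    rw [form_split h]
    have h1 : (∑ j : Fin r, a i j * (X ^ (j : ℕ) * b j)) = -(X ^ r * (M *ᵥ z) i) := by
      simp only [Matrix.mulVec, dotProduct, Finset.mul_sum, ← Finset.sum_neg_distrib]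
      refine Finset.sum_congr rfl fun j _ => ?_
      simp only [b, dif_pos j.2, hM, Matrix.of_apply, Fin.eta]
      have : (X : F[X]) ^ r = X ^ (j : ℕ) * X ^ (r - j) := by
        rw [← pow_add]; congr 1; omega
      rw [this]; ring
    have h2 : (∑ k ∈ range (d - r), X ^ k * a i (r + k) * b (r + k)) = M.det * q i := by
      simp only [q, Finset.mul_sum]
      refine Finset.sum_congr rfl fun k _ => ?_
      simp only [b, dif_neg (show ¬ (r + k < r) by omega)]
      ring
    rw [h1, h2, Matrix.mulVec_cramer]
    simp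

/-- Nonvanishing step. -/
theorem not_all_orth {F : Type u} [Field F] {d r : ℕ} (h : r + 1 ≤ d)
    (a : Fin (r + 1) → ℕ → F[X])
    (hdet : (Matrix.of fun i j : Fin (r + 1) => (a i j).coeff 0).det ≠ 0)
    (b : ℕ → F[X]) (hb : (b r).coeff 0 ≠ 0) : ¬ ∀ i, form d (a i) b = 0 := by
  classical
  intro hall
  set M : Matrix (Fin (r + 1)) (Fin (r + 1)) F[X] := Matrix.of fun i j => a i j with hM
  let z : Fin (r + 1) → F[X] := fun j => X ^ (j : ℕ) * b j
  let q : Fin (r + 1) → F[X] := fun i =>
    -∑ k ∈ range (d - (r + 1)), X ^ k * a i (r + 1 + k) * b (r + 1 + k)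
  have h1 : M *ᵥ z = (X ^ (r + 1) : F[X]) • q := by
    ext1 i
    have := hall i
    rw [form_split h] at this
    simp only [Matrix.mulVec, dotProduct, hM, Matrix.of_apply, z, q, Pi.smul_apply, smul_eq_mul,
      mul_neg]
    exact eq_neg_of_add_eq_zero_left this
  have h2 : M.det • z = (X ^ (r + 1) : F[X]) • (M.adjugate *ᵥ q) := by
    rw [← Matrix.mulVec_smul, ← h1, Matrix.mulVec_mulVec, Matrix.adjugate_mul,
      Matrix.smul_mulVec, Matrix.one_mulVec]
  have h3 := congrFun h2 (Fin.last r)
  simp only [Pi.smul_apply, smul_eq_mul, z, Fin.val_last] at h3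
  have h4 : M.det * b r = X * (M.adjugate *ᵥ q) (Fin.last r) := by
    apply mul_left_cancel₀ (pow_ne_zero r (Polynomial.X_ne_zero (R := F)))
    linear_combination h3
  have h5 := congrArg (fun p => Polynomial.coeff p 0) h4
  simp only [Polynomial.mul_coeff_zero, Polynomial.coeff_X_zero, zero_mul] at h5
  rcases mul_eq_zero.mp h5 with h6 | h6
  · rw [hM, det_coeff_zero] at h6
    exact hdet h6
  · exact hb h6

end Pool.Agent.MP_199c9e_co

end MrgPart1

-- ======== part 2: formerly Pool.Agent.MP_199c9e_co.Main
section MrgPart2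

/-!
Faithful orthogonal representations in dimension `d` for graphs of maximum degree below `d`,
over every infinite field.
-/

set_option autoImplicit false

namespace Pool.Agent.MP_199c9e_co

open Finset Polynomial Matrix

universe u

theorem det_scaled {F : Type u} [Field F] {m : ℕ} (c : Fin m → F) (hc : ∀ i, c i ≠ 0)
    (A : Fin m → Fin m → F) (hA : (Matrix.of A).det ≠ 0) :
    (Matrix.of fun i j => c i * A i j).det ≠ 0 := by
  have := Matrix.det_mul_column c (Matrix.of A)
  simp only [Matrix.of_apply] at this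
  rw [this]
  exact mul_ne_zero (Finset.prod_ne_zero_iff.mpr fun i _ => hc i) hA

/-- Polynomial vectors that are orthogonal exactly along the edges of `H`. -/
theorem exists_vectors (F : Type u) [Field F] [Infinite F] {V : Type} [Fintype V]
    (H : SimpleGraph V) [DecidableRel H.Adj] (d : ℕ) (hd : ∀ v, H.degree v < d) :
    ∃ x : V → ℕ → F[X], ∀ u v, u ≠ v → (form d (x u) (x v) = 0 ↔ H.Adj u v) := by
  classical
  obtain ⟨l, s, hl, hs1, hs2, hs3⟩ := exists_levels H d hd
  obtain ⟨y, hy1, hy2⟩ := exists_generic F l d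
  have hind : ∀ r, ∃ (x : V → ℕ → F[X]) (c : V → F), ∀ v, l v < r →
      c v ≠ 0 ∧ (∀ j, (x v j).coeff 0 = c v * stair l y v j) ∧
        ∀ i, i < l v → form d (x (s v i)) (x v) = 0 := by
    intro r
    induction r with
    | zero => exact ⟨fun _ _ => 0, fun _ => 0, fun v hv => absurd hv (Nat.not_lt_zero _)⟩
    | succ r ih =>
      obtain ⟨x, c, hx⟩ := ih
      have hstep : ∀ v, l v = r → ∃ (b : ℕ → F[X]) (e : F), e ≠ 0 ∧
          (∀ j, (b j).coeff 0 = e * stair l y v j) ∧
            ∀ i, i < l v → form d (x (s v i)) b = 0 := by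
        intro v hv
        have hlev : ∀ i : Fin r, l (s v i) ≤ i := fun i => (hs2 v i (hv ▸ i.2)).2
        have hlt : ∀ i : Fin r, l (s v i) < r := fun i => lt_of_le_of_lt (hlev i) i.2
        have hinj : Function.Injective (fun i : Fin r => s v i) := fun i j hij =>
          Fin.ext (hs1 v i j (hv ▸ i.2) (hv ▸ j.2) hij)
        have hdet : (Matrix.of fun i j : Fin r => (x (s v i) j).coeff 0).det ≠ 0 := by
          have h0 := det_scaled (fun i : Fin r => c (s v i)) (fun i => (hx _ (hlt i)).1)
            (fun i j : Fin r => stair l y (s v i) j)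
            (hy2 r (hv ▸ (hl v).le) (fun i => s v i) hinj hlev)
          have he : (Matrix.of fun i j : Fin r => (x (s v i) j).coeff 0) =
              Matrix.of fun i j : Fin r => c (s v i) * stair l y (s v i) j := by
            ext i j
            exact (hx _ (hlt i)).2.1 j
          rw [he]
          exact h0
        obtain ⟨b, e, he, hb1, hb2⟩ := exists_step (d := d) (hv ▸ (hl v).le)
          (fun i : Fin r => x (s v i)) (fun j => y (v, j)) hdet
        refine ⟨b, e, he, ?_, ?_⟩
        · intro j
          rw [hb1 j, stair, hv]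
        · intro i hi
          exact hb2 ⟨i, hv ▸ hi⟩
      choose! b e hbe using hstep
      refine ⟨fun v => if l v = r then b v else x v, fun v => if l v = r then e v else c v, ?_⟩
      intro v hv
      have hne : ∀ i, i < l v → ¬ l (s v i) = r := by
        intro i hi
        have := (hs2 v i hi).2
        omega
      by_cases hvr : l v = r
      · simp only [if_pos hvr]
        refine ⟨(hbe v hvr).1, (hbe v hvr).2.1, ?_⟩
        intro i hi
        rw [if_neg (hne i hi)]
        exact (hbe v hvr).2.2 i hi
      · simp only [if_neg hvr]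
        have hv' : l v < r := by omega
        refine ⟨(hx v hv').1, (hx v hv').2.1, ?_⟩
        intro i hi
        rw [if_neg (hne i hi)]
        exact (hx v hv').2.2 i hi
  obtain ⟨x, c, hx⟩ := hind d
  have key : ∀ u v, u ≠ v → l u ≤ l v → (form d (x u) (x v) = 0 ↔ H.Adj u v) := by
    intro u v huv hle
    constructor
    · intro h0
      by_contra hadj
      let τ : Fin (l v + 1) → V := fun i => if (i : ℕ) < l v then s v i else u
      have hτ1 : Function.Injective τ := by
        intro i j hij
        simp only [τ] at hij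
        have hi := i.2
        have hj := j.2
        split_ifs at hij with h1 h2 h2
        · exact Fin.ext (hs1 v i j h1 h2 hij)
        · exact absurd (hij ▸ (hs2 v i h1).1).symm hadj
        · exact absurd (hij ▸ (hs2 v j h2).1).symm hadj
        · exact Fin.ext (by omega)
      have hτ2 : ∀ i, l (τ i) ≤ i := by
        intro i
        have hi := i.2
        simp only [τ]
        split_ifs with h1
        · exact (hs2 v i h1).2
        · omega
      have hdet : (Matrix.of fun i j : Fin (l v + 1) => (x (τ i) j).coeff 0).det ≠ 0 := by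
        have h0 := det_scaled (fun i => c (τ i)) (fun i => (hx _ (hl _)).1)
          (fun i j : Fin (l v + 1) => stair l y (τ i) j) (hy2 _ (hl v) τ hτ1 hτ2)
        have he : (Matrix.of fun i j : Fin (l v + 1) => (x (τ i) j).coeff 0) =
            Matrix.of fun i j : Fin (l v + 1) => c (τ i) * stair l y (τ i) j := by
          ext i j
          exact (hx _ (hl _)).2.1 j
        rw [he]
        exact h0
      have hb : (x v (l v)).coeff 0 ≠ 0 := by
        rw [(hx v (hl v)).2.1, stair, if_neg (lt_irrefl _)]
        exact mul_ne_zero (hx v (hl v)).1 (hy1 v)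
      apply not_all_orth (d := d) (hl v) (fun i => x (τ i)) hdet (x v) hb
      intro i
      simp only [τ]
      split_ifs with h1
      · exact (hx v (hl v)).2.2 i h1
      · exact h0
    · intro hadj
      obtain ⟨i, hi, he⟩ := hs3 u v hadj.symm hle
      rw [← he]
      exact (hx v (hl v)).2.2 i hi
  refine ⟨x, fun u v huv => ?_⟩
  rcases le_total (l u) (l v) with h | h
  · exact key u v huv h
  · rw [form_comm, H.adj_comm]
    exact key v u huv.symm h

/-- A symmetric matrix of rank at most `d` whose off-diagonal zeros are the edges of `H`. -/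
theorem exists_matrix (F : Type u) [Field F] [Infinite F] {V : Type} [Fintype V] [DecidableEq V]
    (H : SimpleGraph V) [DecidableRel H.Adj] (d : ℕ) (hd : ∀ v, H.degree v < d) :
    ∃ A : Matrix V V F, A.IsSymm ∧ (∀ u v, u ≠ v → (A u v = 0 ↔ H.Adj u v)) ∧ A.rank ≤ d := by
  classical
  obtain ⟨x, hx⟩ := exists_vectors F H d hd
  obtain ⟨t, ht⟩ := exists_common_nonroot'
    (fun a : {a : V × V // form d (x a.1) (x a.2) ≠ 0} => form d (x a.1.1) (x a.1.2))
    (fun a => a.2)
  refine ⟨Matrix.of fun u v => (form d (x u) (x v)).eval t, ?_, ?_, ?_⟩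
  · ext u v
    simp only [Matrix.transpose_apply, Matrix.of_apply, form_comm d (x v) (x u)]
  · intro u v huv
    rw [← hx u v huv, Matrix.of_apply]
    constructor
    · intro h0
      by_contra hne
      exact ht ⟨(u, v), hne⟩ h0
    · intro h0
      rw [h0, Polynomial.eval_zero]
  · have : (Matrix.of fun u v => (form d (x u) (x v)).eval t) =
        (Matrix.of fun (u : V) (j : Fin d) => t ^ (j : ℕ) * (x u j).eval t) *
          (Matrix.of fun (j : Fin d) (v : V) => (x v j).eval t) := by
      ext u v
      simp only [Matrix.of_apply, Matrix.mul_apply, form, Polynomial.eval_finsetSum,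
        Polynomial.eval_mul, Polynomial.eval_pow, Polynomial.eval_X]
      exact Finset.sum_range (fun j => t ^ j * (x u j).eval t * (x v j).eval t)
    rw [this]
    refine (Matrix.rank_mul_le_left _ _).trans ?_
    simpa using Matrix.rank_le_card_width
      (Matrix.of fun (u : V) (j : Fin d) => t ^ (j : ℕ) * (x u j).eval t)

/-- The minimum rank of a graph over an infinite field is at most the order minus the minimum
degree. -/
theorem delta_bound (F : Type u) [Field F] [Infinite F] (V : Type) [Fintype V] [DecidableEq V]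
    (G : SimpleGraph V) [DecidableRel G.Adj] :
    ∃ A : Matrix V V F, A.IsSymm ∧
      (∀ i j : V, i ≠ j → (A i j ≠ 0 ↔ G.Adj i j)) ∧
      A.rank + G.minDegree ≤ Fintype.card V := by
  classical
  have hd : ∀ v, Gᶜ.degree v < Fintype.card V - G.minDegree := by
    intro v
    have h1 := G.degree_compl v
    have h2 := G.minDegree_le_degree v
    have h3 := G.degree_lt_card_verts v
    omega
  have hmin : G.minDegree ≤ Fintype.card V := by
    rcases isEmpty_or_nonempty V with hV | ⟨⟨v⟩⟩
    · simp
    · exact (G.minDegree_le_degree v).trans (G.degree_lt_card_verts v).le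
  obtain ⟨A, hA1, hA2, hA3⟩ := exists_matrix F Gᶜ _ hd
  refine ⟨A, hA1, ?_, by omega⟩
  intro i j hij
  rw [Ne, hA2 i j hij, SimpleGraph.compl_adj]
  tauto

end Pool.Agent.MP_199c9e_co

end MrgPart2

-- marker of a merged file
example : 731051 + 66089 = 731051 + 66089 := rfl
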